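import Mathlib
import Pool.Agent.Lib.MP_e664f7_nt.Main

set_option autoImplicit false

namespace Pool.Agent.Results.MP_e664f7_nt.NoConstant

/-- For every real constant `C` there are `n` and a nonempty finite set `A` of positive integers
at most `n` such that, for all sufficiently large `x`, the proportion of integers in `[1, x]`
divisible by some element of `A` is more than `C` times that proportion for `[1, n]`. -/
theorem result :
    ∀ C : ℝ, ∃ n : ℕ, ∃ A : Finset ℕ, A.Nonempty ∧ (∀ a ∈ A, 0 < a ∧ a ≤ n) ∧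
      ∃ x₀ : ℕ, n < x₀ ∧ ∀ x : ℕ, x₀ ≤ x →
        C * ((((Finset.Icc 1 n).filter (fun m => ∃ a ∈ A, a ∣ m)).card : ℝ) / (n : ℝ)) <
          ((((Finset.Icc 1 x).filter (fun m => ∃ a ∈ A, a ∣ m)).card : ℝ) / (x : ℝ)) := by
  intro C
  obtain ⟨n, A, hA, hAn, x₀, hx₀, hx⟩ := Pool.Agent.Lib.MP_e664f7_nt.unbounded C
  refine ⟨n, A, hA, hAn, x₀, hx₀, ?_⟩
  intro x hxx
  have h2 := hx x hxx
  unfold Pool.Agent.Lib.MP_e664f7_nt.D at h2
  exact h2

end Pool.Agent.Results.MP_e664f7_nt.NoConstant
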